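import Pool.Agent.Q273.NC.Trn
import Pool.Agent.Q273.AD.Fin
import Pool.Agent.Q273.MV.Trade2
import Pool.Agent.Results.MP_17a322_nt.NormalCrossings
import Pool.Agent.Results.MP_17a322_nt.HypersurfacesSparse

/-!
# The proximity to a divisor with normal crossings near almost every adelic point
-/

set_option autoImplicit false
set_option linter.unusedSectionVars false

namespace Q273.NC

open MeasureTheory NumberField IsDedekindDomain
open NumberField.mixedEmbedding NumberField.InfinitePlace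
open Q273.AD (FinAd prA fae' up1A)
open Pool.Agent.Results.MP_17a322_nt.NormalCrossings (IsPrimitive height proximity
  NormalCrossingsOver one_le_height natAbs_le_height)

theorem cmv (n : ℕ) : Countable (MvPolynomial (Fin n) ℤ) := by
  rw [← Cardinal.mk_le_aleph0_iff]
  refine (MvPolynomial.cardinalMk_le_max).trans ?_
  simp

variable {N : ℕ}

/-- the affine coordinates of the point with homogeneous coordinates `x` -/
def aff (x : Fin (N + 1) → ℤ) : Fin N → ℚ := fun j => (x j.succ : ℚ) / x 0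

/-- the proximity function is bounded below -/
theorem prox_lower {q : ℕ} (F : Fin q → MvPolynomial (Fin (N + 1)) ℤ) (d : Fin q → ℕ)
    (hF : ∀ j, (F j).IsHomogeneous (d j)) (S : Finset ℕ) :
    ∃ c : ℝ, 0 ≤ c ∧ ∀ x : Fin (N + 1) → ℤ, IsPrimitive x →
      (∀ j, MvPolynomial.eval x (F j) ≠ 0) → -c ≤ proximity F d S x := by
  have h1 : ∀ j, ∃ A : ℝ, 1 ≤ A ∧ ∀ (B : ℝ), 1 ≤ B → ∀ x : Fin (N + 1) → ℤ,
      (∀ i, |(x i : ℝ)| ≤ B) → |((MvPolynomial.eval x (F j) : ℤ) : ℝ)| ≤ A * B ^ (d j) :=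
    fun j => Pool.Agent.H951R3.W.eval_bound (F j) (hF j)
  choose A hA1 hA using h1
  refine ⟨∑ j, Real.log (A j), Finset.sum_nonneg fun j _ => Real.log_nonneg (hA1 j), ?_⟩
  intro x hx hne
  unfold proximity
  rw [← Finset.sum_neg_distrib]
  refine Finset.sum_le_sum fun j _ => ?_
  have hH : (1 : ℝ) ≤ height x := by exact_mod_cast one_le_height x hx
  have h2 := hA j (height x) hH x (natAbs_le_height x)
  have h3 : (0 : ℝ) < |((MvPolynomial.eval x (F j) : ℤ) : ℝ)| := by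
    rw [abs_pos]
    exact_mod_cast hne j
  have h4 : (0 : ℝ) < A j := by linarith [hA1 j]
  have h5 : (A j)⁻¹ ≤ (height x : ℝ) ^ d j / |((MvPolynomial.eval x (F j) : ℤ) : ℝ)| := by
    rw [le_div_iff₀ h3, inv_mul_le_iff₀ h4]
    exact h2
  have h6 := Real.log_le_log (inv_pos.2 h4) h5
  rw [Real.log_inv] at h6
  have h7 : 0 ≤ ∑ p ∈ S, (padicValInt p (MvPolynomial.eval x (F j)) : ℝ) * Real.log p :=
    Finset.sum_nonneg fun p _ => mul_nonneg (Nat.cast_nonneg _) (Real.log_natCast_nonneg _)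
  linarith

/-- the law for one divisor at the adelic point `p` -/
def Law (p : (Fin N → mixedSpace ℚ) × FinAd ℚ N) {q : ℕ}
    (F : Fin q → MvPolynomial (Fin (N + 1)) ℤ) (d : Fin q → ℕ) (S : Finset ℕ) (κ0 : ℝ) : Prop :=
  ∀ (V : Finset (HeightOneSpectrum (𝓞 ℚ))) (ε : ℝ), 0 < ε → ∃ C : ℝ,
    ∀ x : Fin (N + 1) → ℤ, IsPrimitive x → (∀ j, MvPolynomial.eval x (F j) ≠ 0) →
      N * prA V p (aff x) + κ0⁻¹ * min (proximity F d S x) (κ0 * Real.log (height x)) ≤
        ((N : ℝ) + 1 + ε) * Real.log (height x) + C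

open scoped Classical in
/-- from counts to a law -/
theorem law_of_counts (hN : 1 ≤ N) [MeasurableSpace (FinAd ℚ N)] [BorelSpace (FinAd ℚ N)]
    (μ : Measure (FinAd ℚ N)) [IsFiniteMeasure μ] [μ.IsAddLeftInvariant]
    {q : ℕ} (F : Fin q → MvPolynomial (Fin (N + 1)) ℤ) (d : Fin q → ℕ)
    (hF : ∀ j, (F j).IsHomogeneous (d j)) (S : Finset ℕ) (κ0 : ℝ) (hκ0 : 0 < κ0)
    (hcount : ∀ κ c δ : ℝ, 0 ≤ κ → κ ≤ κ0 → 0 < δ → ∃ C : ℝ, 0 < C ∧ ∀ B : ℝ, 1 ≤ B →
      {x : Fin (N + 1) → ℤ | IsPrimitive x ∧ (height x : ℝ) ≤ B ∧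
        (∀ j, MvPolynomial.eval x (F j) ≠ 0) ∧
        κ * Real.log (height x) + c ≤ proximity F d S x}.Finite ∧
      ({x : Fin (N + 1) → ℤ | IsPrimitive x ∧ (height x : ℝ) ≤ B ∧
        (∀ j, MvPolynomial.eval x (F j) ≠ 0) ∧
        κ * Real.log (height x) + c ≤ proximity F d S x}.ncard : ℝ) ≤
          C * B ^ ((N : ℝ) + (1 - κ / κ0) + δ)) :
    ∀ᵐ p : (Fin N → mixedSpace ℚ) × FinAd ℚ N ∂(volume.prod μ), Law p F d S κ0 := by
  obtain ⟨c, hc0, hc⟩ := prox_lower F d hF S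
  have hN0 : (0 : ℝ) ≤ N := Nat.cast_nonneg N
  have key : ∀ i : ℕ × ℕ, ∀ᵐ p : (Fin N → mixedSpace ℚ) × FinAd ℚ N ∂(volume.prod μ),
      0 < i.2 → i.1 ≤ i.2 →
      ∀ V : Finset (HeightOneSpectrum (𝓞 ℚ)), ∀ ε : ℝ, 0 < ε → ∃ C : ℝ,
      ∀ x ∈ {x : Fin (N + 1) → ℤ | IsPrimitive x ∧ (∀ j, MvPolynomial.eval x (F j) ≠ 0) ∧
        κ0 * ((i.1 : ℝ) / i.2) * Real.log (height x) - c ≤ proximity F d S x},
        (N : ℝ) * prA V p (aff x) ≤
          ((N : ℝ) + 1 - (i.1 : ℝ) / i.2 + ε) * Real.log (height x) + C := by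
    rintro ⟨j, J⟩
    by_cases hJ : 0 < J ∧ j ≤ J
    · obtain ⟨hJ0, hj⟩ := hJ
      have hJ0' : (0 : ℝ) < J := by exact_mod_cast hJ0
      have h1 : (j : ℝ) / J ≤ 1 := by
        rw [div_le_one hJ0']
        exact_mod_cast hj
      have h0 : 0 ≤ (j : ℝ) / J := by positivity
      have h := up1A fae' hN μ (T := Fin (N + 1) → ℤ) aff (fun x => (height x : ℝ))
        {x : Fin (N + 1) → ℤ | IsPrimitive x ∧ (∀ j, MvPolynomial.eval x (F j) ≠ 0) ∧
        κ0 * ((j : ℝ) / J) * Real.log (height x) - c ≤ proximity F d S x}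
        (fun x hx => by exact_mod_cast one_le_height x hx.1) (s := (N : ℝ) + 1 - (j : ℝ) / J)
        (by linarith) (fun δ hδ => ?_)
      · filter_upwards [h] with p hp
        exact fun _ _ => hp
      · obtain ⟨C, hC, hmain⟩ := hcount (κ0 * ((j : ℝ) / J)) (-c) δ (by positivity)
          (by nlinarith) hδ
        refine ⟨C, fun X hX => ?_⟩
        have hset : {x : Fin (N + 1) → ℤ | x ∈ {x : Fin (N + 1) → ℤ | IsPrimitive x ∧
            (∀ j, MvPolynomial.eval x (F j) ≠ 0) ∧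
            κ0 * ((j : ℝ) / J) * Real.log (height x) - c ≤ proximity F d S x} ∧
            (height x : ℝ) ≤ X} = {x : Fin (N + 1) → ℤ | IsPrimitive x ∧ (height x : ℝ) ≤ X ∧
            (∀ j, MvPolynomial.eval x (F j) ≠ 0) ∧
            κ0 * ((j : ℝ) / J) * Real.log (height x) + -c ≤ proximity F d S x} := by
          ext x
          constructor
          · rintro ⟨⟨g1, g2, g3⟩, g4⟩
            exact ⟨g1, g4, g2, by linarith⟩
          · rintro ⟨g1, g4, g2, g3⟩
            exact ⟨⟨g1, g2, by linarith⟩, g4⟩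
        rw [hset]
        refine ⟨(hmain X hX).1, (hmain X hX).2.trans (le_of_eq ?_)⟩
        congr 2
        rw [mul_div_cancel_left₀ _ hκ0.ne']
        ring
    · exact Filter.Eventually.of_forall fun p g1 g2 => absurd ⟨g1, g2⟩ hJ
  filter_upwards [ae_all_iff.2 key] with p hp
  intro V
  set G : Set (Fin (N + 1) → ℤ) := {x | IsPrimitive x ∧ ∀ j, MvPolynomial.eval x (F j) ≠ 0} with hG
  have hh : ∀ x ∈ G, 0 ≤ Real.log (height x : ℝ) := fun x hx =>
    Real.log_nonneg (by exact_mod_cast one_le_height x hx.1)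
  have h := Q273.MV.tradeoff2 (fun x : Fin (N + 1) → ℤ => Real.log (height x : ℝ))
    (fun x => κ0⁻¹ * min (proximity F d S x + c) (κ0 * Real.log (height x)))
    (fun x => (N : ℝ) * prA V p (aff x)) G (n0 := (N : ℝ) + 1) (κ0 := 1) zero_le_one
    (fun x hx => by
      have h1 := hc x hx.1 hx.2
      have h2 := hh x hx
      have : 0 ≤ min (proximity F d S x + c) (κ0 * Real.log (height x)) :=
        le_min (by linarith) (by positivity)
      positivity) hh
    (fun j J hJ hj ε hε => by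
      obtain ⟨C, hC⟩ := hp (j, J) hJ hj V ε hε
      refine ⟨C, fun x hx hle => ?_⟩
      rw [one_mul] at hle ⊢
      refine hC x ⟨hx.1, hx.2, ?_⟩
      have h1 : (j : ℝ) / J * Real.log (height x) * κ0 ≤
          min (proximity F d S x + c) (κ0 * Real.log (height x)) := by
        have h2 := mul_le_mul_of_nonneg_right hle hκ0.le
        refine h2.trans (le_of_eq ?_)
        field_simp
      have h3 := h1.trans (min_le_left _ _)
      show κ0 * ((j : ℝ) / J) * Real.log (height x) - c ≤ _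
      linarith) 0
  intro ε hε
  obtain ⟨C, hC⟩ := h ε hε
  refine ⟨C, fun x hx1 hx2 => ?_⟩
  have hx : x ∈ G := ⟨hx1, hx2⟩
  have h1 := hC x hx (by
    show κ0⁻¹ * min (proximity F d S x + c) (κ0 * Real.log (height x)) ≤
      1 * Real.log (height x) + 0
    rw [one_mul, add_zero, inv_mul_le_iff₀ hκ0]
    exact min_le_right _ _)
  have h2 : κ0⁻¹ * min (proximity F d S x) (κ0 * Real.log (height x)) ≤
      κ0⁻¹ * min (proximity F d S x + c) (κ0 * Real.log (height x)) :=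
    mul_le_mul_of_nonneg_left (min_le_min_right _ (by linarith)) (inv_nonneg.2 hκ0.le)
  linarith

end Q273.NC
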