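import Pool.Agent.Q273.NC.Law

/-!
# All divisors with normal crossings, and all hypersurfaces, near almost every adelic point
-/

set_option autoImplicit false
set_option linter.unusedSectionVars false

namespace Q273.NC

open MeasureTheory NumberField IsDedekindDomain
open NumberField.mixedEmbedding NumberField.InfinitePlace
open Rat.HeightOneSpectrum
open Q273.AD (FinAd prA fae' up1A pw pv)
open Pool.Agent.Results.MP_17a322_nt.NormalCrossings (IsPrimitive height proximity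
  NormalCrossingsOver one_le_height natAbs_le_height)

variable {N : ℕ}

/-- normal crossings at the real points and the `p`-adic points for `p ∈ S` -/
def NCS {q : ℕ} (F : Fin q → MvPolynomial (Fin (N + 1)) ℤ) (S : Finset ℕ) : Prop :=
  NormalCrossingsOver F ℝ ∧ ∀ (p : ℕ) [Fact p.Prime], p ∈ S → NormalCrossingsOver F ℚ_[p]

open scoped Classical in
theorem law_nc (hN : 1 ≤ N) [MeasurableSpace (FinAd ℚ N)] [BorelSpace (FinAd ℚ N)]
    (μ : Measure (FinAd ℚ N)) [IsFiniteMeasure μ] [μ.IsAddLeftInvariant] :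
    ∀ᵐ p : (Fin N → mixedSpace ℚ) × FinAd ℚ N ∂(volume.prod μ),
      (∀ (q : ℕ) (F : Fin q → MvPolynomial (Fin (N + 1)) ℤ) (d : Fin q → ℕ) (S : Finset ℕ),
        (∀ j, (F j).IsHomogeneous (d j)) → (∀ p ∈ S, p.Prime) → NCS F S → Law p F d S 1) ∧
      ∀ (F : MvPolynomial (Fin (N + 1)) ℤ) (d : ℕ) (S : Finset ℕ), F ≠ 0 → 1 ≤ d →
        F.IsHomogeneous d → (∀ p ∈ S, p.Prime) → Law p (fun _ : Fin 1 => F) (fun _ => d) S d := by
  have := cmv (N + 1)
  refine Filter.Eventually.and ?_ ?_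
  · have h : ∀ i : (Σ q : ℕ, (Fin q → MvPolynomial (Fin (N + 1)) ℤ) × (Fin q → ℕ)) × Finset ℕ,
        ∀ᵐ p : (Fin N → mixedSpace ℚ) × FinAd ℚ N ∂(volume.prod μ),
        (∀ j, (i.1.2.1 j).IsHomogeneous (i.1.2.2 j)) → (∀ p ∈ i.2, p.Prime) →
          NCS i.1.2.1 i.2 → Law p i.1.2.1 i.1.2.2 i.2 1 := by
      rintro ⟨⟨q, F, d⟩, S⟩
      by_cases hc : (∀ j, (F j).IsHomogeneous (d j)) ∧ (∀ p ∈ S, p.Prime) ∧ NCS F S
      · obtain ⟨hF, hS, hnc⟩ := hc
        filter_upwards [law_of_counts hN μ F d hF S 1 one_pos (fun κ c δ h0 h1 hδ => by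
          obtain ⟨C, hC, h⟩ := Pool.Agent.Results.MP_17a322_nt.NormalCrossings.result N q F d hF S
            hS hnc.1 (fun p _ hp => hnc.2 p hp) κ c δ hδ
          refine ⟨C, hC, fun B hB => ⟨(h B hB).1, (h B hB).2.trans (le_of_eq ?_)⟩⟩
          rw [max_eq_left (by linarith), div_one])] with p hp
        exact fun _ _ _ => hp
      · exact Filter.Eventually.of_forall fun p g1 g2 g3 => absurd ⟨g1, g2, g3⟩ hc
    filter_upwards [ae_all_iff.2 h] with p hp
    intro q F d S h1 h2 h3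
    exact hp ⟨⟨q, F, d⟩, S⟩ h1 h2 h3
  · have h : ∀ i : MvPolynomial (Fin (N + 1)) ℤ × ℕ × Finset ℕ,
        ∀ᵐ p : (Fin N → mixedSpace ℚ) × FinAd ℚ N ∂(volume.prod μ),
        i.1 ≠ 0 → 1 ≤ i.2.1 → i.1.IsHomogeneous i.2.1 → (∀ p ∈ i.2.2, p.Prime) →
          Law p (fun _ : Fin 1 => i.1) (fun _ => i.2.1) i.2.2 i.2.1 := by
      rintro ⟨F, d, S⟩
      by_cases hc : F ≠ 0 ∧ 1 ≤ d ∧ F.IsHomogeneous d ∧ (∀ p ∈ S, p.Prime)
      · obtain ⟨hF0, hd, hF, hS⟩ := hc
        have hd0 : (0 : ℝ) < d := by exact_mod_cast hd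
        filter_upwards [law_of_counts hN μ (fun _ : Fin 1 => F) (fun _ => d) (fun _ => hF) S d hd0
          (fun κ c δ h0 h1 hδ => by
          obtain ⟨C, hC, h⟩ := Pool.Agent.Results.MP_17a322_nt.HypersurfacesSparse.result N F hF0 d
            hd hF S hS κ c δ hδ
          refine ⟨C, hC, fun B hB => ?_⟩
          have hset : {x : Fin (N + 1) → ℤ | IsPrimitive x ∧ (height x : ℝ) ≤ B ∧
              (∀ _ : Fin 1, MvPolynomial.eval x F ≠ 0) ∧
              κ * Real.log (height x) + c ≤ proximity (fun _ : Fin 1 => F) (fun _ => d) S x} =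
              {x : Fin (N + 1) → ℤ |
                Pool.Agent.Results.MP_17a322_nt.HypersurfacesSparse.IsPrimitive x ∧
                (Pool.Agent.Results.MP_17a322_nt.HypersurfacesSparse.height x : ℝ) ≤ B ∧
                MvPolynomial.eval x F ≠ 0 ∧
                κ * Real.log (Pool.Agent.Results.MP_17a322_nt.HypersurfacesSparse.height x) + c ≤
                  Pool.Agent.Results.MP_17a322_nt.HypersurfacesSparse.proximity F d S x} := by
            ext x
            have e : proximity (fun _ : Fin 1 => F) (fun _ => d) S x =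
                Pool.Agent.Results.MP_17a322_nt.HypersurfacesSparse.proximity F d S x := by
              unfold proximity
              rw [Fin.sum_univ_one]
              rfl
            constructor
            · rintro ⟨g1, g2, g3, g4⟩
              rw [e] at g4
              exact ⟨g1, g2, g3 0, g4⟩
            · rintro ⟨g1, g2, g3, g4⟩
              refine ⟨g1, g2, fun _ => g3, ?_⟩
              rw [e]
              exact g4
          rw [hset]
          refine ⟨(h B hB).1, (h B hB).2.trans (le_of_eq ?_)⟩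
          rw [max_eq_left (by
            have := (div_le_one hd0).2 h1
            linarith)])] with p hp
        exact fun _ _ _ _ => hp
      · exact Filter.Eventually.of_forall fun p g1 g2 g3 g4 => absurd ⟨g1, g2, g3, g4⟩ hc
    filter_upwards [ae_all_iff.2 h] with p hp
    intro F d S h1 h2 h3 h4
    exact hp ⟨F, d, S⟩ h1 h2 h3 h4

/-- the proximity function of the target -/
noncomputable def mN (V : Finset Nat.Primes) (u : (Fin N → ℝ) × ZHatN N) (y : Fin N → ℚ) : ℝ :=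
  Real.log (max 1 (⨆ j : Fin N, |u.1 j - (y j : ℝ)|)⁻¹) + ∑ p ∈ V, mpN u.2 p y

/-- the law over `ℝ^N × ∏ ℤ_p^N` -/
def LawZ (u : (Fin N → ℝ) × ZHatN N) {q : ℕ}
    (F : Fin q → MvPolynomial (Fin (N + 1)) ℤ) (d : Fin q → ℕ) (S : Finset ℕ) (κ0 : ℝ) : Prop :=
  ∀ (V : Finset Nat.Primes) (ε : ℝ), 0 < ε → ∃ C : ℝ,
    ∀ x : Fin (N + 1) → ℤ, IsPrimitive x → (∀ j, MvPolynomial.eval x (F j) ≠ 0) →
      N * mN V u (aff x) + κ0⁻¹ * min (proximity F d S x) (κ0 * Real.log (height x)) ≤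
        ((N : ℝ) + 1 + ε) * Real.log (height x) + C

open scoped Classical in
theorem law_z (hN : 1 ≤ N) [MeasurableSpace (ZHatN N)] [BorelSpace (ZHatN N)]
    (μ : Measure (ZHatN N)) [IsFiniteMeasure μ] [μ.IsAddLeftInvariant] :
    ∀ᵐ u : (Fin N → ℝ) × ZHatN N ∂(volume.prod μ),
      (∀ (q : ℕ) (F : Fin q → MvPolynomial (Fin (N + 1)) ℤ) (d : Fin q → ℕ) (S : Finset ℕ),
        (∀ j, (F j).IsHomogeneous (d j)) → (∀ p ∈ S, p.Prime) → NCS F S → LawZ u F d S 1) ∧
      ∀ (F : MvPolynomial (Fin (N + 1)) ℤ) (d : ℕ) (S : Finset ℕ), F ≠ 0 → 1 ≤ d →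
        F.IsHomogeneous d → (∀ p ∈ S, p.Prime) → LawZ u (fun _ : Fin 1 => F) (fun _ => d) S d := by
  have h := trn N μ (fun p =>
      (∀ (q : ℕ) (F : Fin q → MvPolynomial (Fin (N + 1)) ℤ) (d : Fin q → ℕ) (S : Finset ℕ),
        (∀ j, (F j).IsHomogeneous (d j)) → (∀ p ∈ S, p.Prime) → NCS F S → Law p F d S 1) ∧
      ∀ (F : MvPolynomial (Fin (N + 1)) ℤ) (d : ℕ) (S : Finset ℕ), F ≠ 0 → 1 ≤ d →
        F.IsHomogeneous d → (∀ p ∈ S, p.Prime) → Law p (fun _ : Fin 1 => F) (fun _ => d) S d)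
      (fun ν _ _ => law_nc hN ν)
  filter_upwards [h] with u hu
  obtain ⟨p, ⟨hp1, hp2⟩, g1, g2⟩ := hu
  have key : ∀ (q : ℕ) (F : Fin q → MvPolynomial (Fin (N + 1)) ℤ) (d : Fin q → ℕ) (S : Finset ℕ)
      (κ0 : ℝ), Law p F d S κ0 → LawZ u F d S κ0 := by
    intro q F d S κ0 hl V ε hε
    obtain ⟨C, hC⟩ := hl (V.map primesEquiv.symm.toEmbedding) ε hε
    refine ⟨C, fun x h1 h2 => ?_⟩
    have h3 := hC x h1 h2
    have e1 : ∑ w : InfinitePlace ℚ, (w.mult : ℝ) * pw p.1 w (aff x) =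
        Real.log (max 1 (⨆ j : Fin N, |u.1 j - (aff x j : ℝ)|)⁻¹) := by
      rw [Finset.sum_congr rfl fun w _ => g1 w (aff x), Finset.sum_const, Finset.card_univ,
        Fintype.card_eq_one_iff_nonempty_unique.2 ⟨inferInstance⟩, one_smul]
    have e3 : prA (V.map primesEquiv.symm.toEmbedding) p (aff x) = mN V u (aff x) := by
      unfold mN prA
      rw [Q273.AD.prox_eq, e1, Finset.sum_map]
      congr 1
      refine Finset.sum_congr rfl fun r _ => ?_
      show pv (primesEquiv.symm r) (p.2 (primesEquiv.symm r)) (aff x) = _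
      rw [g2 (primesEquiv.symm r) (aff x), Equiv.apply_symm_apply]
    rw [e3] at h3
    exact h3
  exact ⟨fun q F d S h1 h2 h3 => key q F d S 1 (hp1 q F d S h1 h2 h3),
    fun F d S h1 h2 h3 h4 => key 1 _ _ S d (hp2 F d S h1 h2 h3 h4)⟩

end Q273.NC
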