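import Pool.Agent.Q273.AD.Stm
import Pool.Agent.Q177.AD.Trq

/-!
# Transfer from the finite adelic vectors of `ℚ` to the product of the `ℤ_p^n`

Adapted from `Pool.Agent.Q177.AD.Trq` (helper177), the case `n = 1`.
-/

set_option autoImplicit false
set_option linter.all false

open MeasureTheory NumberField NumberField.mixedEmbedding
open IsDedekindDomain Pool.Agent.H691R3 Pool.Agent.W232.VA
open Rat.HeightOneSpectrum

namespace Q273.NC

open Q273.AD (FinAd pw pv)
open Pool.Agent.Q177.AD (isReal_rat mult_rat norm_equiv mpE fU)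

variable {n : ℕ}

/-- the product of the `ℤ_p^n` over all primes `p`, with the product topology -/
abbrev ZHatN (n : ℕ) : Type := (p : Nat.Primes) → Fin n → @PadicInt p.1 ⟨p.2⟩

/-- the proximity at the prime `p`: `log max (1, 1 / max_j |η_j - y_j|_p)` -/
noncomputable def mpN (η : ZHatN n) (p : Nat.Primes) (y : Fin n → ℚ) : ℝ :=
  haveI : Fact p.1.Prime := ⟨p.2⟩
  Real.log (max 1 (⨆ j : Fin n, ‖((η p j : ℤ_[p.1]) : ℚ_[p.1]) - (y j : ℚ_[p.1])‖)⁻¹)

/-- the map from the product of the `ℤ_p^n` to the finite adelic integral vectors -/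
noncomputable def Ph (η : ZHatN n) : FinAd ℚ n := fun v j =>
  (adicCompletionIntegers.padicIntEquiv v).symm (η (primesEquiv v) j)

theorem Ph_cont : Continuous (Ph (n := n)) := by
  refine continuous_pi fun v => continuous_pi fun j => ?_
  exact (adicCompletionIntegers.padicIntEquiv v).symm.continuous.comp
    ((continuous_apply j).comp (continuous_apply (primesEquiv v)))

theorem Ph_add (η ζ : ZHatN n) : Ph (η + ζ) = Ph η + Ph ζ := by
  funext v j
  exact map_add (adicCompletionIntegers.padicIntEquiv v).symm _ _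

theorem Ph_surj (g : FinAd ℚ n) : ∃ η, Ph η = g := by
  refine ⟨Equiv.piCongrLeft (fun p : Nat.Primes => Fin n → @PadicInt p.1 ⟨p.2⟩) primesEquiv
    (fun v j => adicCompletionIntegers.padicIntEquiv v (g v j)), ?_⟩
  funext v j
  show (adicCompletionIntegers.padicIntEquiv v).symm
    (Equiv.piCongrLeft (fun p : Nat.Primes => Fin n → @PadicInt p.1 ⟨p.2⟩) primesEquiv
      (fun v j => adicCompletionIntegers.padicIntEquiv v (g v j)) (primesEquiv v) j) = g v j
  rw [Equiv.piCongrLeft_apply_apply]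
  exact (adicCompletionIntegers.padicIntEquiv v).symm_apply_apply _

theorem Ph_inv [MeasurableSpace (ZHatN n)] [BorelSpace (ZHatN n)] (μ : Measure (ZHatN n))
    [μ.IsAddLeftInvariant] [MeasurableSpace (FinAd ℚ n)] [BorelSpace (FinAd ℚ n)] :
    (μ.map Ph).IsAddLeftInvariant := by
  refine ⟨fun g => ?_⟩
  obtain ⟨g', rfl⟩ := Ph_surj g
  have h1 : Measurable (Ph (n := n)) := Ph_cont.measurable
  have h2 : Measurable (fun x : FinAd ℚ n => Ph g' + x) :=
    (continuous_const.add continuous_id).measurable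
  have h3 : Measurable (fun x : ZHatN n => g' + x) :=
    (continuous_const.add continuous_id).measurable
  rw [Measure.map_map h2 h1]
  have h4 : (fun x : FinAd ℚ n => Ph g' + x) ∘ Ph = Ph ∘ fun x : ZHatN n => g' + x := by
    funext x
    exact (Ph_add g' x).symm
  rw [h4, ← Measure.map_map h1 h3, map_add_left_eq_self]

theorem pv_eq (v : HeightOneSpectrum (𝓞 ℚ)) (η : ZHatN n) (y : Fin n → ℚ) :
    pv v (Ph η v) y = mpN η (primesEquiv v) y := by
  unfold pv mpN
  have h1 : ∀ j : Fin n, ‖((Ph η v j : v.adicCompletionIntegers ℚ) : v.adicCompletion ℚ) -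
      FinitePlace.embedding v (y j)‖ =
        ‖((η (primesEquiv v) j : ℤ_[(primesEquiv v : Nat.Primes).1]) :
        ℚ_[(primesEquiv v : Nat.Primes).1]) - (y j : ℚ_[(primesEquiv v : Nat.Primes).1])‖ := by
    intro j
    rw [← norm_equiv v, map_sub]
    congr 2
    · show adicCompletion.padicEquiv v (((adicCompletionIntegers.padicIntEquiv v).symm
        (η (primesEquiv v) j) : v.adicCompletionIntegers ℚ) : v.adicCompletion ℚ) = _
      rw [adicCompletionIntegers.coe_padicIntEquiv_symm_apply]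
      exact (adicCompletion.padicEquiv v).apply_symm_apply _
    · rw [eq_ratCast (FinitePlace.embedding v) (y j)]
      exact map_ratCast _ (y j)
  simp only [h1]

/-- a real number as an element of the mixed space of `ℚ` -/
noncomputable def E1 (t : ℝ) : mixedSpace ℚ := (fun _ => t, fun _ => 0)

/-- a real vector as a vector with coordinates in the mixed space of `ℚ` -/
noncomputable def EN (t : Fin n → ℝ) : Fin n → mixedSpace ℚ := fun j => E1 (t j)

theorem mp1 (A B : Type) [Fintype A] [Fintype B] (U : Unique A) [IsEmpty B] :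
    MeasurePreserving (fun t : ℝ => ((fun _ => t, fun _ => 0) : (A → ℝ) × (B → ℂ)))
      volume volume := by
  have h1 := mpE A B U
  have h2 := (fU (Fin 1) ((A → ℝ) × (B → ℂ)) inferInstance)
  exact h2.comp h1

open scoped Classical in
theorem E1_mp : MeasurePreserving E1 (volume : Measure ℝ) volume := by
  haveI : IsEmpty {w : InfinitePlace ℚ // w.IsComplex} :=
    ⟨fun a => InfinitePlace.not_isReal_iff_isComplex.2 a.2 (isReal_rat _)⟩
  exact mp1 {w : InfinitePlace ℚ // w.IsReal} {w : InfinitePlace ℚ // w.IsComplex}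
    { default := ⟨Rat.infinitePlace, Rat.isReal_infinitePlace⟩
      uniq := fun a => Subtype.ext (Subsingleton.elim _ _) }

open scoped Classical in
theorem EN_mp : MeasurePreserving (EN (n := n)) volume volume :=
  volume_preserving_pi fun _ => E1_mp

theorem normE (t : Fin n → ℝ) (w : InfinitePlace ℚ) (y : Fin n → ℚ) (j : Fin n) :
    normAtPlace w (EN t j - mixedEmbedding ℚ (y j)) = |t j - (y j : ℝ)| := by
  rw [normAtPlace_apply_of_isReal (isReal_rat w)]
  show ‖t j - (mixedEmbedding ℚ (y j)).1 ⟨w, isReal_rat w⟩‖ = _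
  rw [mixedEmbedding_apply_isReal, Real.norm_eq_abs, eq_ratCast]

open scoped Classical in
theorem trn (n : ℕ) :
    ∀ [MeasurableSpace (ZHatN n)] [BorelSpace (ZHatN n)] (μ : Measure (ZHatN n)) [IsFiniteMeasure μ]
    [μ.IsAddLeftInvariant] (Q : (Fin n → mixedSpace ℚ) × FinAd ℚ n → Prop),
    (∀ [MeasurableSpace (FinAd ℚ n)] [BorelSpace (FinAd ℚ n)] (ν : Measure (FinAd ℚ n))
      [IsFiniteMeasure ν] [ν.IsAddLeftInvariant],
      ∀ᵐ p : (Fin n → mixedSpace ℚ) × FinAd ℚ n ∂(volume.prod ν), Q p) →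
    ∀ᵐ u : (Fin n → ℝ) × ZHatN n ∂(volume.prod μ),
      ∃ p : (Fin n → mixedSpace ℚ) × FinAd ℚ n, Q p ∧
      (∀ (w : InfinitePlace ℚ) (y : Fin n → ℚ), (w.mult : ℝ) * pw p.1 w y =
        Real.log (max 1 (⨆ j : Fin n, |u.1 j - (y j : ℝ)|)⁻¹)) ∧
      ∀ (v : HeightOneSpectrum (𝓞 ℚ)) (y : Fin n → ℚ),
        pv v (p.2 v) y = mpN u.2 (primesEquiv v) y := by
  intro _ _ μ _ _ Q hQ
  letI : MeasurableSpace (FinAd ℚ n) := borel _
  haveI : BorelSpace (FinAd ℚ n) := ⟨rfl⟩
  haveI : (μ.map (Ph (n := n))).IsAddLeftInvariant := Ph_inv μ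
  haveI : IsFiniteMeasure (μ.map (Ph (n := n))) := inferInstance
  have h1 := hQ (μ.map Ph)
  have h2 : MeasurePreserving (Ph (n := n)) μ (μ.map Ph) := ⟨Ph_cont.measurable, rfl⟩
  have h3 := (EN_mp (n := n)).prod h2
  have h4 := h3.quasiMeasurePreserving.ae h1
  filter_upwards [h4] with u hu
  refine ⟨(EN u.1, Ph u.2), hu, ?_, ?_⟩
  · intro w y
    rw [mult_rat, Nat.cast_one, one_mul]
    unfold pw
    simp only [normE]
  · intro v y
    exact pv_eq v u.2 y

end Q273.NC
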